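import Pool.Agent.Helper51.BW.Spec

/-!
# BW: elementary lemmas on `Ex`, `Pr` and `wk`
-/

open MeasureTheory Filter Topology

namespace Pool.Agent.Helper39.BW

open Pool.Agent.Helper51.BW

variable {α : Type} [Fintype α]

theorem Ex_mono (p : α → ℝ) (hp : ∀ e, 0 ≤ p e) (n : ℕ) :
    ∀ F G : List α → ℝ, (∀ l, l.length = n → F l ≤ G l) → Ex p n F ≤ Ex p n G := by
  induction n with
  | zero =>
    intro F G h
    exact h [] rfl
  | succ n ih =>
    intro F G h
    show ∑ e, p e * Ex p n (fun l => F (e :: l)) ≤ ∑ e, p e * Ex p n (fun l => G (e :: l))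
    refine Finset.sum_le_sum fun e _ => mul_le_mul_of_nonneg_left ?_ (hp e)
    exact ih _ _ fun l hl => h _ (by simp [hl])

theorem Ex_const (p : α → ℝ) (h1 : ∑ e, p e = 1) (n : ℕ) (c : ℝ) : Ex p n (fun _ => c) = c := by
  induction n with
  | zero => rfl
  | succ n ih =>
    show ∑ e, p e * Ex p n (fun _ => c) = c
    rw [ih, ← Finset.sum_mul, h1, one_mul]

theorem Ex_add (p : α → ℝ) (n : ℕ) :
    ∀ F G : List α → ℝ, Ex p n (fun l => F l + G l) = Ex p n F + Ex p n G := by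
  induction n with
  | zero =>
    intro F G
    rfl
  | succ n ih =>
    intro F G
    show ∑ e, p e * Ex p n (fun l => F (e :: l) + G (e :: l)) =
      ∑ e, p e * Ex p n (fun l => F (e :: l)) + ∑ e, p e * Ex p n (fun l => G (e :: l))
    rw [← Finset.sum_add_distrib]
    refine Finset.sum_congr rfl fun e _ => ?_
    rw [ih, mul_add]

theorem ind_nonneg (Q : Prop) : 0 ≤ ind Q := by
  unfold ind
  split_ifs <;> norm_num

theorem ind_le_one (Q : Prop) : ind Q ≤ 1 := by
  unfold ind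
  split_ifs <;> norm_num

theorem ind_true {Q : Prop} (h : Q) : ind Q = 1 := by
  unfold ind
  rw [if_pos h]

theorem ind_false {Q : Prop} (h : ¬ Q) : ind Q = 0 := by
  unfold ind
  rw [if_neg h]

theorem ind_mono {Q Q' : Prop} (h : Q → Q') : ind Q ≤ ind Q' := by
  by_cases hQ : Q
  · rw [ind_true hQ, ind_true (h hQ)]
  · rw [ind_false hQ]
    exact ind_nonneg _

theorem Pr_mono (p : α → ℝ) (hp : ∀ e, 0 ≤ p e) (n : ℕ) (Q Q' : List α → Prop)
    (h : ∀ l, l.length = n → Q l → Q' l) : Pr p n Q ≤ Pr p n Q' :=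
  Ex_mono p hp n _ _ fun l hl => ind_mono (h l hl)

theorem Pr_congr (p : α → ℝ) (hp : ∀ e, 0 ≤ p e) (n : ℕ) (Q Q' : List α → Prop)
    (h : ∀ l, l.length = n → (Q l ↔ Q' l)) : Pr p n Q = Pr p n Q' :=
  le_antisymm (Pr_mono p hp n _ _ fun l hl => (h l hl).1)
    (Pr_mono p hp n _ _ fun l hl => (h l hl).2)

theorem Pr_nonneg (p : α → ℝ) (hp : ∀ e, 0 ≤ p e) (n : ℕ) (Q : List α → Prop) :
    0 ≤ Pr p n Q := by
  induction n generalizing Q with
  | zero => exact ind_nonneg _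
  | succ n ih =>
    show 0 ≤ ∑ e, p e * Pr p n (fun l => Q (e :: l))
    exact Finset.sum_nonneg fun e _ => mul_nonneg (hp e) (ih _)

theorem Pr_le_one (p : α → ℝ) (hp : ∀ e, 0 ≤ p e) (h1 : ∑ e, p e = 1) (n : ℕ)
    (Q : List α → Prop) : Pr p n Q ≤ 1 := by
  have h := Ex_mono p hp n (fun l => ind (Q l)) (fun _ => 1) fun l _ => ind_le_one _
  rwa [Ex_const p h1] at h

theorem Pr_zero (p : α → ℝ) (Q : List α → Prop) : Pr p 0 Q = ind (Q []) := rfl

theorem Pr_succ (p : α → ℝ) (n : ℕ) (Q : List α → Prop) :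
    Pr p (n + 1) Q = ∑ e, p e * Pr p n (fun l => Q (e :: l)) := rfl

theorem Pr_or_le (p : α → ℝ) (hp : ∀ e, 0 ≤ p e) (n : ℕ) (Q Q₁ Q₂ : List α → Prop)
    (h : ∀ l, l.length = n → Q l → Q₁ l ∨ Q₂ l) : Pr p n Q ≤ Pr p n Q₁ + Pr p n Q₂ := by
  unfold Pr
  rw [← Ex_add]
  refine Ex_mono p hp n _ _ fun l hl => ?_
  by_cases hQ : Q l
  · rw [ind_true hQ]
    rcases h l hl hQ with h1 | h1
    · rw [ind_true h1]
      linarith [ind_nonneg (Q₂ l)]
    · rw [ind_true h1]
      linarith [ind_nonneg (Q₁ l)]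
  · rw [ind_false hQ]
    linarith [ind_nonneg (Q₂ l), ind_nonneg (Q₁ l)]

/-- if one of two events always occurs, the probabilities have sum at least one -/
theorem Pr_cover (p : α → ℝ) (hp : ∀ e, 0 ≤ p e) (h1 : ∑ e, p e = 1) (n : ℕ)
    (Q₁ Q₂ : List α → Prop) (h : ∀ l, l.length = n → Q₁ l ∨ Q₂ l) :
    1 ≤ Pr p n Q₁ + Pr p n Q₂ := by
  have h2 := Pr_or_le p hp n (fun _ => True) Q₁ Q₂ fun l hl _ => h l hl
  have h3 : Pr p n (fun _ : List α => True) = 1 := by
    unfold Pr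
    have : (fun _ : List α => ind True) = fun _ => (1 : ℝ) := by
      funext l
      exact ind_true trivial
    rw [this, Ex_const p h1]
  linarith

theorem Ex_take (p : α → ℝ) (h1 : ∑ e, p e = 1) (m n : ℕ) (F : List α → ℝ) :
    Ex p (m + n) (fun l => F (l.take m)) = Ex p m F := by
  induction m generalizing F with
  | zero =>
    simp only [Nat.zero_add, List.take_zero]
    rw [Ex_const p h1]
    rfl
  | succ m ih =>
    rw [Nat.add_right_comm]
    show ∑ e, p e * Ex p (m + n) (fun l => F ((e :: l).take (m + 1))) =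
      ∑ e, p e * Ex p m (fun l => F (e :: l))
    refine Finset.sum_congr rfl fun e _ => ?_
    congr 1
    exact ih (fun l => F (e :: l))

theorem Pr_take (p : α → ℝ) (hp : ∀ e, 0 ≤ p e) (h1 : ∑ e, p e = 1) (m T : ℕ) (hm : m ≤ T)
    (Q Q' : List α → Prop) (h : ∀ l, Q l ↔ Q' (l.take m)) : Pr p T Q = Pr p m Q' := by
  obtain ⟨n, rfl⟩ := Nat.exists_eq_add_of_le hm
  rw [Pr_congr p hp (m + n) Q (fun l => Q' (l.take m)) fun l _ => h l]
  exact Ex_take p h1 m n fun l => ind (Q' l)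

omit [Fintype α] in
theorem wk_zero (f : α → ℝ) (l : List α) : wk f l 0 = 0 := by
  simp [wk]

omit [Fintype α] in
theorem wk_cons (f : α → ℝ) (e : α) (l : List α) (t : ℕ) :
    wk f (e :: l) (t + 1) = f e + wk f l t := by
  simp [wk]

omit [Fintype α] in
theorem wk_take (f : α → ℝ) (l : List α) (m t : ℕ) (h : t ≤ m) :
    wk f (l.take m) t = wk f l t := by
  unfold wk
  rw [List.take_take, min_eq_left h]

omit [Fintype α] in
theorem wk_neg (f : α → ℝ) (l : List α) (t : ℕ) : wk (fun e => -f e) l t = -wk f l t := by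
  induction t generalizing l with
  | zero => rw [wk_zero, wk_zero, neg_zero]
  | succ t ih =>
    cases l with
    | nil => simp [wk]
    | cons e l =>
      rw [wk_cons, wk_cons, ih]
      ring

end Pool.Agent.Helper39.BW
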