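import Pool.Agent.Helper39.BW.Base

/-!
# BW, part CNT: expected number of times at which the positive walk is high
-/

open MeasureTheory Filter Topology

namespace Pool.Agent.Helper39.BW.CNT

open Pool.Agent.Helper51.BW Pool.Agent.Helper39.BW

variable {α : Type} [Fintype α]

open Classical in
/-- probability to reach `2R` before `(-∞, 0]` within `T` steps -/
noncomputable def sT (p f : α → ℝ) (R : ℝ) : ℕ → ℝ → ℝ
  | 0, z => if 2 * R ≤ z then 1 else 0
  | T + 1, z => if 2 * R ≤ z then 1 else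
      if z ≤ 0 then 0 else ∑ e, p e * sT p f R T (z + f e)

open Classical in
/-- probability to stay in `(0, 2R)` for `T` steps -/
noncomputable def uT (p f : α → ℝ) (R : ℝ) : ℕ → ℝ → ℝ
  | 0, z => if 0 < z ∧ z < 2 * R then 1 else 0
  | T + 1, z => if 0 < z ∧ z < 2 * R then ∑ e, p e * uT p f R T (z + f e) else 0

/-- probability to be positive up to time `k` and above `R` at time `k` -/
noncomputable def PP (p f : α → ℝ) (R : ℝ) (k : ℕ) (z : ℝ) : ℝ :=
  Pr p k (fun l => (∀ t ≤ k, 0 < z + wk f l t) ∧ R ≤ z + wk f l k)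

theorem sT_nonneg (p f : α → ℝ) (hp : ∀ e, 0 ≤ p e) (R : ℝ) (T : ℕ) :
    ∀ z, 0 ≤ sT p f R T z := by
  induction T with
  | zero =>
    intro z
    unfold sT
    split_ifs <;> norm_num
  | succ T ih =>
    intro z
    unfold sT
    split_ifs
    · norm_num
    · exact le_rfl
    · exact Finset.sum_nonneg fun e _ => mul_nonneg (hp e) (ih _)

theorem uT_nonneg (p f : α → ℝ) (hp : ∀ e, 0 ≤ p e) (R : ℝ) (T : ℕ) :
    ∀ z, 0 ≤ uT p f R T z := by
  induction T with
  | zero =>
    intro z
    unfold uT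
    split_ifs <;> norm_num
  | succ T ih =>
    intro z
    unfold uT
    split_ifs
    · exact Finset.sum_nonneg fun e _ => mul_nonneg (hp e) (ih _)
    · exact le_rfl

theorem uT_le_one (p f : α → ℝ) (hp : ∀ e, 0 ≤ p e) (h1 : ∑ e, p e = 1) (R : ℝ) (T : ℕ) :
    ∀ z, uT p f R T z ≤ 1 := by
  induction T with
  | zero =>
    intro z
    unfold uT
    split_ifs <;> norm_num
  | succ T ih =>
    intro z
    unfold uT
    split_ifs
    · calc ∑ e, p e * uT p f R T (z + f e) ≤ ∑ e, p e * 1 :=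
          Finset.sum_le_sum fun e _ => mul_le_mul_of_nonneg_left (ih _) (hp e)
        _ = 1 := by simp [h1]
    · norm_num

theorem uT_succ_le (p f : α → ℝ) (hp : ∀ e, 0 ≤ p e) (h1 : ∑ e, p e = 1) (R : ℝ) (T : ℕ) :
    ∀ z, uT p f R (T + 1) z ≤ uT p f R T z := by
  induction T with
  | zero =>
    intro z
    by_cases h : 0 < z ∧ z < 2 * R
    · have e2 : uT p f R 0 z = 1 := by
        unfold uT
        rw [if_pos h]
      rw [e2]
      exact uT_le_one p f hp h1 R _ z
    · have e2 : uT p f R 0 z = 0 := by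
        unfold uT
        rw [if_neg h]
      have e3 : uT p f R (0 + 1) z = 0 := by
        unfold uT
        rw [if_neg h]
      rw [e2, e3]
  | succ T ih =>
    intro z
    by_cases h : 0 < z ∧ z < 2 * R
    · have e2 : uT p f R (T + 1) z = ∑ e, p e * uT p f R T (z + f e) := by
        rw [uT, if_pos h]
      have e3 : uT p f R (T + 1 + 1) z = ∑ e, p e * uT p f R (T + 1) (z + f e) := by
        rw [uT, if_pos h]
      rw [e2, e3]
      exact Finset.sum_le_sum fun e _ => mul_le_mul_of_nonneg_left (ih _) (hp e)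
    · have e3 : uT p f R (T + 1 + 1) z = 0 := by
        rw [uT, if_neg h]
      rw [e3]
      exact uT_nonneg p f hp R _ z

/-- optional stopping -/
theorem opt (p f : α → ℝ) (hp : ∀ e, 0 ≤ p e) (h1 : ∑ e, p e = 1)
    (h0 : ∑ e, p e * f e = 0) (hf : ∀ e, |f e| ≤ 1) (R : ℝ) (hR : 0 < R) (T : ℕ) :
    ∀ z, z ≤ 2 * R + 1 → z ≤ (2 * R + 1) * sT p f R T z + 2 * R * uT p f R T z := by
  induction T with
  | zero =>
    intro z hz
    by_cases hz0 : 0 < z
    · by_cases hz1 : 2 * R ≤ z
      · have e1 : sT p f R 0 z = 1 := by rw [sT, if_pos hz1]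
        have e2 := uT_nonneg p f hp R 0 z
        rw [e1]
        nlinarith
      · have e1 : uT p f R 0 z = 1 := by rw [uT, if_pos ⟨hz0, not_le.1 hz1⟩]
        have e2 := sT_nonneg p f hp R 0 z
        rw [e1]
        nlinarith
    · have e1 := uT_nonneg p f hp R 0 z
      have e2 := sT_nonneg p f hp R 0 z
      have e3 : 0 ≤ (2 * R + 1) * sT p f R 0 z := by positivity
      have e4 : 0 ≤ 2 * R * uT p f R 0 z := by positivity
      linarith
  | succ T ih =>
    intro z hz
    by_cases hz0 : 0 < z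
    · by_cases hz1 : 2 * R ≤ z
      · have e1 : sT p f R (T + 1) z = 1 := by rw [sT, if_pos hz1]
        have e2 := uT_nonneg p f hp R (T + 1) z
        rw [e1]
        nlinarith
      · have e1 : uT p f R (T + 1) z = ∑ e, p e * uT p f R T (z + f e) := by
          rw [uT, if_pos ⟨hz0, not_le.1 hz1⟩]
        have e2 : sT p f R (T + 1) z = ∑ e, p e * sT p f R T (z + f e) := by
          rw [sT, if_neg hz1, if_neg (not_le.2 hz0)]
        rw [e1, e2, Finset.mul_sum, Finset.mul_sum, ← Finset.sum_add_distrib]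
        calc z = ∑ e, p e * (z + f e) := by
              simp only [mul_add]
              rw [Finset.sum_add_distrib, ← Finset.sum_mul, h1, h0]
              ring
          _ ≤ ∑ e, p e * ((2 * R + 1) * sT p f R T (z + f e) +
                2 * R * uT p f R T (z + f e)) := by
              refine Finset.sum_le_sum fun e _ => mul_le_mul_of_nonneg_left ?_ (hp e)
              apply ih
              have := (abs_le.1 (hf e)).2
              linarith [not_le.1 hz1]
          _ = _ := Finset.sum_congr rfl fun e _ => by ring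
    · have e1 := uT_nonneg p f hp R (T + 1) z
      have e2 := sT_nonneg p f hp R (T + 1) z
      have e3 : 0 ≤ (2 * R + 1) * sT p f R (T + 1) z := by positivity
      have e4 : 0 ≤ 2 * R * uT p f R (T + 1) z := by positivity
      linarith

/-- expected exit time -/
theorem sumU (p f : α → ℝ) (hp : ∀ e, 0 ≤ p e) (h1 : ∑ e, p e = 1)
    (h0 : ∑ e, p e * f e = 0) (hf : ∀ e, |f e| ≤ 1) (R : ℝ) (σ2 : ℝ)
    (hσ : 0 < σ2) (hσ2 : ∑ e, p e * f e ^ 2 = σ2) (T : ℕ) :
    ∀ z, -1 ≤ z → z ≤ 2 * R + 1 →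
      ∑ t ∈ Finset.range T, uT p f R t z ≤ (z + 1) * (2 * R + 1 - z) / σ2 := by
  induction T with
  | zero =>
    intro z hz hz'
    rw [Finset.range_zero, Finset.sum_empty]
    apply div_nonneg _ hσ.le
    apply mul_nonneg <;> linarith
  | succ T ih =>
    intro z hz hz'
    rw [Finset.sum_range_succ']
    by_cases h : 0 < z ∧ z < 2 * R
    · have e1 : ∀ t, uT p f R (t + 1) z = ∑ e, p e * uT p f R t (z + f e) := by
        intro t
        rw [uT, if_pos h]
      have e0 : uT p f R 0 z = 1 := by rw [uT, if_pos h]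
      simp only [e1]
      rw [Finset.sum_comm, e0]
      have e2 : ∀ e, ∑ t ∈ Finset.range T, p e * uT p f R t (z + f e) ≤
          p e * ((z + f e + 1) * (2 * R + 1 - (z + f e)) / σ2) := by
        intro e
        rw [← Finset.mul_sum]
        refine mul_le_mul_of_nonneg_left ?_ (hp e)
        have := abs_le.1 (hf e)
        exact ih _ (by linarith [h.1]) (by linarith [h.2])
      have e3 : ∑ e, p e * ((z + f e + 1) * (2 * R + 1 - (z + f e)) / σ2) =
          (z + 1) * (2 * R + 1 - z) / σ2 - 1 := by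
        have e4 : ∀ e, p e * ((z + f e + 1) * (2 * R + 1 - (z + f e)) / σ2) =
            p e * ((z + 1) * (2 * R + 1 - z) / σ2) + (p e * f e) * ((2 * R - 2 * z) / σ2) -
              (p e * f e ^ 2) / σ2 := by
          intro e
          ring
        simp only [e4]
        rw [Finset.sum_sub_distrib, Finset.sum_add_distrib, ← Finset.sum_mul, ← Finset.sum_mul,
          ← Finset.sum_div, h1, h0, hσ2, div_self hσ.ne']
        ring
      have e5 := Finset.sum_le_sum fun e (_ : e ∈ Finset.univ) => e2 e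
      linarith
    · have e1 : ∀ t, uT p f R (t + 1) z = 0 := by
        intro t
        rw [uT, if_neg h]
      have e0 : uT p f R 0 z = 0 := by rw [uT, if_neg h]
      simp only [e1]
      rw [e0, Finset.sum_const_zero, add_zero]
      apply div_nonneg _ hσ.le
      apply mul_nonneg <;> linarith

theorem uT_le (p f : α → ℝ) (hp : ∀ e, 0 ≤ p e) (h1 : ∑ e, p e = 1)
    (h0 : ∑ e, p e * f e = 0) (hf : ∀ e, |f e| ≤ 1) (R : ℝ) (σ2 : ℝ)
    (hσ : 0 < σ2) (hσ2 : ∑ e, p e * f e ^ 2 = σ2) (T : ℕ) (z : ℝ) (hz : -1 ≤ z)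
    (hz' : z ≤ 2 * R + 1) : T * uT p f R T z ≤ (z + 1) * (2 * R + 1 - z) / σ2 := by
  refine le_trans ?_ (sumU p f hp h1 h0 hf R σ2 hσ hσ2 T z hz hz')
  have hanti : Antitone fun t => uT p f R t z :=
    antitone_nat_of_succ_le fun t => uT_succ_le p f hp h1 R t z
  have : ∑ t ∈ Finset.range T, uT p f R T z ≤ ∑ t ∈ Finset.range T, uT p f R t z :=
    Finset.sum_le_sum fun t ht => hanti (Finset.mem_range.1 ht).le
  simpa using this

theorem PP_nonneg (p f : α → ℝ) (hp : ∀ e, 0 ≤ p e) (R : ℝ) (k : ℕ) (z : ℝ) :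
    0 ≤ PP p f R k z := Pr_nonneg p hp _ _

theorem PP_succ (p f : α → ℝ) (hp : ∀ e, 0 ≤ p e) (R : ℝ) (k : ℕ) (z : ℝ) (hz : 0 < z) :
    PP p f R (k + 1) z = ∑ e, p e * PP p f R k (z + f e) := by
  unfold PP
  rw [Pr_succ]
  refine Finset.sum_congr rfl fun e _ => ?_
  congr 1
  apply Pr_congr p hp
  intro l _
  constructor
  · rintro ⟨h2, h3⟩
    rw [wk_cons] at h3
    refine ⟨fun t ht => ?_, by linarith⟩
    have := h2 (t + 1) (by omega)
    rw [wk_cons] at this
    linarith
  · rintro ⟨h2, h3⟩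
    rw [wk_cons]
    refine ⟨fun t ht => ?_, by linarith⟩
    cases t with
    | zero =>
      rw [wk_zero]
      linarith
    | succ t =>
      rw [wk_cons]
      have := h2 t (by omega)
      linarith

theorem PP_half (hKOL : S_KOL) (p f : α → ℝ) (hp : ∀ e, 0 ≤ p e) (h1 : ∑ e, p e = 1)
    (h0 : ∑ e, p e * f e = 0) (hf : ∀ e, |f e| ≤ 1) (R : ℝ) (hR : 0 < R) (k : ℕ)
    (hk : (k : ℝ) ≤ R ^ 2 / 2) (z : ℝ) (hz : 2 * R ≤ z) : 1 / 2 ≤ PP p f R k z := by
  have e1 := hKOL α p f hp h1 h0 hf k R hR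
  have e2 : (k : ℝ) / R ^ 2 ≤ 1 / 2 := by
    rw [div_le_iff₀ (by positivity)]
    linarith
  have e3 := Pr_cover p hp h1 k (fun l => (∀ t ≤ k, 0 < z + wk f l t) ∧ R ≤ z + wk f l k)
    (fun l => ∃ t ≤ k, R ≤ |wk f l t|) (by
      intro l _
      by_cases h : ∃ t ≤ k, R ≤ |wk f l t|
      · exact Or.inr h
      · left
        push Not at h
        refine ⟨fun t ht => ?_, ?_⟩
        · have := (abs_lt.1 (h t ht)).1
          linarith
        · have := (abs_lt.1 (h k le_rfl)).1
          linarith)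
  unfold PP
  linarith

theorem top (hKOL : S_KOL) (p f : α → ℝ) (hp : ∀ e, 0 ≤ p e) (h1 : ∑ e, p e = 1)
    (h0 : ∑ e, p e * f e = 0) (hf : ∀ e, |f e| ≤ 1) (R : ℝ) (hR : 0 < R) (m N : ℕ)
    (hmN : m ≤ N) (hN : (N : ℝ) ≤ R ^ 2 / 2) (z : ℝ) (hz : 2 * R ≤ z) :
    ((N : ℝ) - m + 1) / 2 ≤ ∑ k ∈ Finset.Icc m N, PP p f R k z := by
  have h2 : ∑ _k ∈ Finset.Icc m N, (1 / 2 : ℝ) ≤ ∑ k ∈ Finset.Icc m N, PP p f R k z := by
    refine Finset.sum_le_sum fun k hk => ?_
    rw [Finset.mem_Icc] at hk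
    apply PP_half hKOL p f hp h1 h0 hf R hR k _ z hz
    have : (k : ℝ) ≤ N := by exact_mod_cast hk.2
    linarith
  rw [Finset.sum_const, Nat.card_Icc, nsmul_eq_mul] at h2
  have h3 : ((N + 1 - m : ℕ) : ℝ) = (N : ℝ) - m + 1 := by
    rw [Nat.cast_sub (by omega)]
    push_cast
    ring
  rw [h3] at h2
  linarith

theorem chain (hKOL : S_KOL) (p f : α → ℝ) (hp : ∀ e, 0 ≤ p e) (h1 : ∑ e, p e = 1)
    (h0 : ∑ e, p e * f e = 0) (hf : ∀ e, |f e| ≤ 1) (R : ℝ) (hR : 0 < R) (m N : ℕ)
    (hmN : m ≤ N) (hN : (N : ℝ) ≤ R ^ 2 / 2) (T : ℕ) :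
    ∀ z, ((N : ℝ) - m + 1) / 2 * sT p f R T z ≤ ∑ k ∈ Finset.Icc m (T + N), PP p f R k z := by
  have hpos : 0 ≤ ((N : ℝ) - m + 1) / 2 := by
    have : (m : ℝ) ≤ N := by exact_mod_cast hmN
    linarith
  have hgen : ∀ (T : ℕ) (z : ℝ), 2 * R ≤ z →
      ((N : ℝ) - m + 1) / 2 ≤ ∑ k ∈ Finset.Icc m (T + N), PP p f R k z := by
    intro T z hz
    refine (top hKOL p f hp h1 h0 hf R hR m N hmN hN z hz).trans ?_
    apply Finset.sum_le_sum_of_subset_of_nonneg
    · intro k hk
      rw [Finset.mem_Icc] at hk ⊢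
      omega
    · intro k _ _
      exact PP_nonneg p f hp R k z
  induction T with
  | zero =>
    intro z
    by_cases hz : 2 * R ≤ z
    · have e1 : sT p f R 0 z = 1 := by rw [sT, if_pos hz]
      rw [e1, mul_one]
      exact hgen 0 z hz
    · have e1 : sT p f R 0 z = 0 := by rw [sT, if_neg hz]
      rw [e1, mul_zero]
      exact Finset.sum_nonneg fun k _ => PP_nonneg p f hp R k z
  | succ T ih =>
    intro z
    by_cases hz : 2 * R ≤ z
    · have e1 : sT p f R (T + 1) z = 1 := by rw [sT, if_pos hz]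
      rw [e1, mul_one]
      exact hgen (T + 1) z hz
    · by_cases hz0 : z ≤ 0
      · have e1 : sT p f R (T + 1) z = 0 := by rw [sT, if_neg hz, if_pos hz0]
        rw [e1, mul_zero]
        exact Finset.sum_nonneg fun k _ => PP_nonneg p f hp R k z
      · have e1 : sT p f R (T + 1) z = ∑ e, p e * sT p f R T (z + f e) := by
          rw [sT, if_neg hz, if_neg hz0]
        rw [e1]
        have e2 : ∑ k ∈ Finset.Icc m (T + N), PP p f R (k + 1) z ≤
            ∑ k ∈ Finset.Icc m (T + 1 + N), PP p f R k z := by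
          have e3 : ∑ k ∈ Finset.Icc m (T + N), PP p f R (k + 1) z =
              ∑ k ∈ (Finset.Icc m (T + N)).image (fun k => k + 1), PP p f R k z := by
            rw [Finset.sum_image]
            intro a _ b _ h
            simpa using h
          rw [e3]
          apply Finset.sum_le_sum_of_subset_of_nonneg
          · intro k hk
            rw [Finset.mem_image] at hk
            obtain ⟨k', hk', rfl⟩ := hk
            rw [Finset.mem_Icc] at hk' ⊢
            omega
          · intro k _ _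
            exact PP_nonneg p f hp R k z
        refine le_trans ?_ e2
        have e4 : ∀ k, PP p f R (k + 1) z = ∑ e, p e * PP p f R k (z + f e) := fun k =>
          PP_succ p f hp R k z (not_le.1 hz0)
        simp only [e4]
        rw [Finset.sum_comm, Finset.mul_sum]
        refine Finset.sum_le_sum fun e _ => ?_
        rw [← Finset.mul_sum]
        have e5 := mul_le_mul_of_nonneg_left (ih (z + f e)) (hp e)
        calc ((N : ℝ) - m + 1) / 2 * (p e * sT p f R T (z + f e)) =
            p e * (((N : ℝ) - m + 1) / 2 * sT p f R T (z + f e)) := by ring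
          _ ≤ _ := e5

theorem main (hKOL : S_KOL) : S_CNT := by
  intro α _ p f hp h1 h0 hf he
  obtain ⟨e0, hp0, hf0⟩ := he
  set a : ℝ := f e0 with ha
  have ha1 : a ≤ 1 := (abs_le.1 (hf e0)).2
  set σ2 : ℝ := ∑ e, p e * f e ^ 2 with hσ2
  have hσ : 0 < σ2 := by
    apply Finset.sum_pos' (fun e _ => mul_nonneg (hp e) (sq_nonneg _))
    exact ⟨e0, Finset.mem_univ _, by positivity⟩
  set D' : ℝ := 24 / (a * σ2) with hD'
  have hD'pos : 0 < D' := by positivity
  refine ⟨p e0 * a / 48, by positivity, 1 / 4, by norm_num, D' + 3, by linarith, 2, ?_⟩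
  intro R hR
  have hR0 : 0 < R := by linarith
  set N : ℕ := ⌊R ^ 2 / 2⌋₊ with hN
  set m : ℕ := N / 2 with hm
  set T : ℕ := ⌈D' * R ^ 2⌉₊ with hT
  have hN1 : (N : ℝ) ≤ R ^ 2 / 2 := Nat.floor_le (by positivity)
  have hN2 : R ^ 2 / 2 < N + 1 := Nat.lt_floor_add_one _
  have hm1 : (m : ℝ) ≤ N / 2 := Nat.cast_div_le
  have hm2 : (N : ℝ) ≤ 2 * m + 1 := by
    have : N ≤ 2 * m + 1 := by omega
    exact_mod_cast this
  have hT1 : D' * R ^ 2 ≤ T := Nat.le_ceil _
  have hT2 : (T : ℝ) < D' * R ^ 2 + 1 := Nat.ceil_lt_add_one (by positivity)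
  have hTpos : (0 : ℝ) < T := lt_of_lt_of_le (by positivity) hT1
  -- the bound of `uT`
  have hu : 2 * R * uT p f R T a ≤ a / 2 := by
    have e1 := uT_le p f hp h1 h0 hf R σ2 hσ hσ2.symm T a (by linarith) (by linarith)
    have e2 : (a + 1) * (2 * R + 1 - a) / σ2 ≤ 6 * R / σ2 := by
      apply div_le_div_of_nonneg_right _ hσ.le
      nlinarith
    have e3 : uT p f R T a ≤ 6 * R / σ2 / T := by
      rw [le_div_iff₀ hTpos, mul_comm]
      exact e1.trans e2
    have e4 : 6 * R / σ2 / T ≤ 6 * R / σ2 / (D' * R ^ 2) :=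
      div_le_div_of_nonneg_left (by positivity) (by positivity) hT1
    have e5 : 2 * R * (6 * R / σ2 / (D' * R ^ 2)) = a / 2 := by
      rw [hD']
      field_simp
      norm_num
    rw [← e5]
    exact mul_le_mul_of_nonneg_left (e3.trans e4) (by positivity)
  have hs : a / (6 * R) ≤ sT p f R T a := by
    have e1 := opt p f hp h1 h0 hf R hR0 T a (by linarith)
    have e2 : a / 2 ≤ (2 * R + 1) * sT p f R T a := by linarith
    have e3 : (2 * R + 1) * sT p f R T a ≤ (3 * R) * sT p f R T a :=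
      mul_le_mul_of_nonneg_right (by linarith) (sT_nonneg p f hp R T a)
    rw [div_le_iff₀ (by positivity)]
    linarith
  have hc := chain hKOL p f hp h1 h0 hf R hR0 m N (Nat.div_le_self _ _) hN1 T a
  have hmain : a * R / 48 ≤ ∑ k ∈ Finset.Icc m (T + N), PP p f R k a := by
    refine le_trans ?_ hc
    have e1 : R ^ 2 / 8 ≤ ((N : ℝ) - m + 1) / 2 := by linarith
    calc a * R / 48 = R ^ 2 / 8 * (a / (6 * R)) := by
          field_simp
          norm_num
      _ ≤ ((N : ℝ) - m + 1) / 2 * sT p f R T a :=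
          mul_le_mul e1 hs (by positivity) (by
            have : (0 : ℝ) ≤ R ^ 2 / 8 := by positivity
            linarith)
  -- the first step
  have hstep : ∀ k, p e0 * PP p f R k a ≤
      Pr p (k + 1) (fun l => (∀ t, 1 ≤ t → t ≤ k + 1 → 0 < wk f l t) ∧ R ≤ wk f l (k + 1)) := by
    intro k
    rw [Pr_succ]
    calc p e0 * PP p f R k a ≤ p e0 * Pr p k (fun l => (∀ t, 1 ≤ t → t ≤ k + 1 →
          0 < wk f (e0 :: l) t) ∧ R ≤ wk f (e0 :: l) (k + 1)) := by
          refine mul_le_mul_of_nonneg_left (Pr_mono p hp k _ _ ?_) hp0.le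
          rintro l _ ⟨h2, h3⟩
          refine ⟨fun t ht ht' => ?_, ?_⟩
          · cases t with
            | zero => omega
            | succ t =>
              rw [wk_cons]
              exact h2 t (by omega)
          · rw [wk_cons]
            exact h3
      _ ≤ _ := Finset.single_le_sum
          (f := fun e => p e * Pr p k (fun l => (∀ t, 1 ≤ t → t ≤ k + 1 →
            0 < wk f (e :: l) t) ∧ R ≤ wk f (e :: l) (k + 1)))
          (fun e _ => mul_nonneg (hp e) (Pr_nonneg p hp _ _)) (Finset.mem_univ e0)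
  calc p e0 * a / 48 * R = p e0 * (a * R / 48) := by ring
    _ ≤ p e0 * ∑ k ∈ Finset.Icc m (T + N), PP p f R k a :=
        mul_le_mul_of_nonneg_left hmain hp0.le
    _ = ∑ k ∈ Finset.Icc m (T + N), p e0 * PP p f R k a := Finset.mul_sum _ _ _
    _ ≤ ∑ k ∈ Finset.Icc m (T + N), Pr p (k + 1) (fun l => (∀ t, 1 ≤ t → t ≤ k + 1 →
          0 < wk f l t) ∧ R ≤ wk f l (k + 1)) := Finset.sum_le_sum fun k _ => hstep k
    _ = ∑ k ∈ (Finset.Icc m (T + N)).image (fun k => k + 1), Pr p k (fun l => (∀ t, 1 ≤ t →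
          t ≤ k → 0 < wk f l t) ∧ R ≤ wk f l k) := by
        rw [Finset.sum_image]
        intro a _ b _ h
        simpa using h
    _ ≤ _ := by
        apply Finset.sum_le_sum_of_subset_of_nonneg
        · intro k hk
          rw [Finset.mem_image] at hk
          obtain ⟨k', hk', rfl⟩ := hk
          rw [Finset.mem_Icc] at hk' ⊢
          have e1 : (m : ℝ) ≤ k' := by exact_mod_cast hk'.1
          have e2 : (k' : ℝ) ≤ T + N := by exact_mod_cast hk'.2
          have hR2 : 4 ≤ R ^ 2 := by nlinarith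
          constructor
          · apply Nat.ceil_le.2
            push_cast
            linarith
          · apply Nat.le_floor
            push_cast
            linarith
        · intro k _ _
          exact Pr_nonneg p hp _ _

end Pool.Agent.Helper39.BW.CNT
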