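import Pool.Agent.Helper39.BW.Base

/-!
# BW, part DEV: Hoeffding's inequality with maximum
-/

open MeasureTheory Filter Topology

namespace Pool.Agent.Helper39.BW.DEV

open Pool.Agent.Helper51.BW Pool.Agent.Helper39.BW

variable {α : Type} [Fintype α]

/-- exponential inequality for the maximum -/
theorem max_exp (p f : α → ℝ) (hp : ∀ e, 0 ≤ p e) (h1 : ∑ e, p e = 1) (s Λ z : ℝ)
    (hs : 0 ≤ s) (hΛ : 0 ≤ Λ) (hm : ∑ e, p e * Real.exp (s * f e) ≤ Real.exp Λ) (T : ℕ) :
    ∀ y : ℝ, Pr p T (fun l => ∃ t ≤ T, z ≤ y + wk f l t) ≤ Real.exp (s * (y - z) + T * Λ) := by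
  induction T with
  | zero =>
    intro y
    by_cases hy : z ≤ y
    · refine (Pr_le_one p hp h1 0 _).trans (Real.one_le_exp ?_)
      have := mul_nonneg hs (sub_nonneg.2 hy)
      push_cast
      linarith
    · rw [Pr_zero, ind_false]
      · exact (Real.exp_pos _).le
      · rintro ⟨t, ht, h⟩
        obtain rfl : t = 0 := by omega
        rw [wk_zero, add_zero] at h
        exact hy h
  | succ T ih =>
    intro y
    by_cases hy : z ≤ y
    · refine (Pr_le_one p hp h1 _ _).trans (Real.one_le_exp ?_)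
      have h2 := mul_nonneg hs (sub_nonneg.2 hy)
      have h3 : 0 ≤ ((T + 1 : ℕ) : ℝ) * Λ := mul_nonneg (Nat.cast_nonneg _) hΛ
      linarith
    · rw [Pr_succ]
      have h2 : ∀ e, Pr p T (fun l => ∃ t ≤ T + 1, z ≤ y + wk f (e :: l) t) ≤
          Real.exp (s * (y + f e - z) + T * Λ) := by
        intro e
        refine le_trans (Pr_mono p hp T _ _ ?_) (ih (y + f e))
        rintro l _ ⟨t, ht, h⟩
        cases t with
        | zero =>
          rw [wk_zero, add_zero] at h
          exact absurd h hy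
        | succ t =>
          rw [wk_cons] at h
          exact ⟨t, by omega, by linarith⟩
      calc ∑ e, p e * Pr p T (fun l => ∃ t ≤ T + 1, z ≤ y + wk f (e :: l) t)
          ≤ ∑ e, p e * Real.exp (s * (y + f e - z) + T * Λ) :=
            Finset.sum_le_sum fun e _ => mul_le_mul_of_nonneg_left (h2 e) (hp e)
        _ = Real.exp (s * (y - z) + T * Λ) * ∑ e, p e * Real.exp (s * f e) := by
            rw [Finset.mul_sum]
            refine Finset.sum_congr rfl fun e _ => ?_
            have : s * (y + f e - z) + T * Λ = (s * (y - z) + T * Λ) + s * f e := by ring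
            rw [this, Real.exp_add]
            ring
        _ ≤ Real.exp (s * (y - z) + T * Λ) * Real.exp Λ :=
            mul_le_mul_of_nonneg_left hm (Real.exp_pos _).le
        _ = Real.exp (s * (y - z) + ((T + 1 : ℕ) : ℝ) * Λ) := by
            rw [← Real.exp_add]
            congr 1
            push_cast
            ring

/-- Hoeffding's lemma -/
theorem hoeff (p f : α → ℝ) (hp : ∀ e, 0 ≤ p e) (h1 : ∑ e, p e = 1)
    (h0 : ∑ e, p e * f e = 0) (b : ℝ) (hb : 0 < b) (hf : ∀ e, |f e| ≤ b) (s : ℝ) :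
    ∑ e, p e * Real.exp (s * f e) ≤ Real.exp ((s * b) ^ 2 / 2) := by
  have h2 : ∀ e, Real.exp (s * f e) ≤ (b - f e) / (2 * b) * Real.exp (-(s * b)) +
      (b + f e) / (2 * b) * Real.exp (s * b) := by
    intro e
    have h3 := abs_le.1 (hf e)
    have h4 := convexOn_exp.2 (Set.mem_univ (-(s * b))) (Set.mem_univ (s * b))
      (div_nonneg (by linarith : 0 ≤ b - f e) (by linarith : 0 ≤ 2 * b))
      (div_nonneg (by linarith : 0 ≤ b + f e) (by linarith : 0 ≤ 2 * b))
      (by
        field_simp
        ring)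
    simp only [smul_eq_mul] at h4
    have h5 : (b - f e) / (2 * b) * (-(s * b)) + (b + f e) / (2 * b) * (s * b) = s * f e := by
      field_simp
      ring
    rw [h5] at h4
    exact h4
  calc ∑ e, p e * Real.exp (s * f e)
      ≤ ∑ e, p e * ((b - f e) / (2 * b) * Real.exp (-(s * b)) +
        (b + f e) / (2 * b) * Real.exp (s * b)) :=
        Finset.sum_le_sum fun e _ => mul_le_mul_of_nonneg_left (h2 e) (hp e)
    _ = ∑ e, (p e * ((Real.exp (s * b) + Real.exp (-(s * b))) / 2) +
        (p e * f e) * ((Real.exp (s * b) - Real.exp (-(s * b))) / (2 * b))) := by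
        refine Finset.sum_congr rfl fun e _ => ?_
        field_simp
        ring
    _ = Real.cosh (s * b) := by
        rw [Finset.sum_add_distrib, ← Finset.sum_mul, ← Finset.sum_mul, h1, h0, Real.cosh_eq]
        ring
    _ ≤ Real.exp ((s * b) ^ 2 / 2) := Real.cosh_le_exp_half_sq _

theorem main : S_DEV := by
  intro α _ p f hp h1 h0 b hb hf T z hT hz
  have hT' : (0 : ℝ) < T := by exact_mod_cast hT
  set s : ℝ := z / (b ^ 2 * T) with hsdef
  have hs : 0 ≤ s := div_nonneg hz (by positivity)
  have hΛ : 0 ≤ (s * b) ^ 2 / 2 := by positivity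
  have e1 := max_exp p f hp h1 s _ z hs hΛ (hoeff p f hp h1 h0 b hb hf s) T 0
  have e2 := max_exp p (fun e => -f e) hp h1 s _ z hs hΛ
    (hoeff p (fun e => -f e) hp h1 (by
      have : ∑ e, p e * -f e = -∑ e, p e * f e := by
        rw [← Finset.sum_neg_distrib]
        exact Finset.sum_congr rfl fun e _ => by ring
      rw [this, h0, neg_zero]) b hb (fun e => by rw [abs_neg]; exact hf e) s) T 0
  have e3 : s * (0 - z) + T * ((s * b) ^ 2 / 2) = -(z ^ 2 / (2 * b ^ 2 * T)) := by
    rw [hsdef]
    field_simp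
    ring
  rw [e3] at e1 e2
  have e4 := Pr_or_le p hp T (fun l => ∃ t ≤ T, z ≤ |wk f l t|)
    (fun l => ∃ t ≤ T, z ≤ 0 + wk f l t) (fun l => ∃ t ≤ T, z ≤ 0 + wk (fun e => -f e) l t) (by
      rintro l _ ⟨t, ht, h⟩
      rcases le_abs.1 h with h | h
      · left
        exact ⟨t, ht, by linarith⟩
      · right
        exact ⟨t, ht, by rw [wk_neg]; linarith⟩)
  linarith

end Pool.Agent.Helper39.BW.DEV
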