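import Pool.Agent.Helper39.BW.Base

/-!
# BW, parts STAY, STAY0: a centered walk stays positive
-/

open MeasureTheory Filter Topology

namespace Pool.Agent.Helper39.BW.STAY

open Pool.Agent.Helper51.BW Pool.Agent.Helper39.BW

theorem main (hKOL : S_KOL) : S_STAY := by
  intro α _ p f hp h1 h0 hf M hM
  obtain ⟨L, hL1, hL2⟩ : ∃ L : ℝ, 1 ≤ L ∧ 2 * M ≤ L ^ 2 := by
    refine ⟨1 + 2 * M, by linarith, ?_⟩
    nlinarith
  refine ⟨1 / (2 * (L + 1)), by positivity, ?_⟩
  intro R z T1 T hR hz hzR hT1 hT
  -- reduction to `T1`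
  have hred : Pr p T (fun l => ∀ t ≤ T1, 0 < z + wk f l t) =
      Pr p T1 (fun l => ∀ t ≤ T1, 0 < z + wk f l t) := by
    apply Pr_take p hp h1 T1 T hT
    intro l
    constructor
    · intro h t ht
      rw [wk_take f l T1 t ht]
      exact h t ht
    · intro h t ht
      have := h t ht
      rwa [wk_take f l T1 t ht] at this
  rw [hred]
  set H : ℝ := L * R with hH
  have hHpos : 0 < H := by positivity
  -- from above `H`
  have htop : ∀ t : ℕ, (t : ℝ) ≤ M * R ^ 2 → ∀ y : ℝ, H ≤ y →
      1 / 2 ≤ Pr p t (fun l => ∀ r ≤ t, 0 < y + wk f l r) := by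
    intro t ht y hy
    have e1 := hKOL α p f hp h1 h0 hf t H hHpos
    have e2 : (t : ℝ) / H ^ 2 ≤ 1 / 2 := by
      rw [div_le_iff₀ (by positivity)]
      have : H ^ 2 = L ^ 2 * R ^ 2 := by rw [hH]; ring
      rw [this]
      have h3 : 2 * M * R ^ 2 ≤ L ^ 2 * R ^ 2 := mul_le_mul_of_nonneg_right hL2 (by positivity)
      linarith
    have e3 := Pr_cover p hp h1 t (fun l => ∀ r ≤ t, 0 < y + wk f l r)
      (fun l => ∃ r ≤ t, H ≤ |wk f l r|) (by
        intro l _
        by_cases h : ∀ r ≤ t, 0 < y + wk f l r
        · exact Or.inl h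
        · right
          push Not at h
          obtain ⟨r, hr, h⟩ := h
          refine ⟨r, hr, le_abs.2 (Or.inr ?_)⟩
          linarith)
    linarith
  have key : ∀ t : ℕ, (t : ℝ) ≤ M * R ^ 2 → ∀ y : ℝ, y ≤ H + 1 →
      1 / 2 * (y / (H + 1)) ≤ Pr p t (fun l => ∀ r ≤ t, 0 < y + wk f l r) := by
    intro t
    induction t with
    | zero =>
      intro _ y hy
      by_cases hy0 : 0 < y
      · rw [Pr_zero, ind_true]
        · have : y / (H + 1) ≤ 1 := by
            rw [div_le_one (by linarith)]
            exact hy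
          linarith
        · intro r hr
          obtain rfl : r = 0 := by omega
          rw [wk_zero]
          linarith
      · have : y / (H + 1) ≤ 0 := div_nonpos_of_nonpos_of_nonneg (by linarith) (by linarith)
        have h2 := Pr_nonneg p hp 0 (fun l => ∀ r ≤ 0, 0 < y + wk f l r)
        linarith
    | succ t ih =>
      intro ht y hy
      have ht' : (t : ℝ) ≤ M * R ^ 2 := by
        push_cast at ht
        linarith
      by_cases hy0 : 0 < y
      · by_cases hyH : H ≤ y
        · have h2 := htop (t + 1) ht y hyH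
          have : y / (H + 1) ≤ 1 := by
            rw [div_le_one (by linarith)]
            exact hy
          linarith
        · rw [Pr_succ]
          have h2 : ∀ e, 1 / 2 * ((y + f e) / (H + 1)) ≤
              Pr p t (fun l => ∀ r ≤ t + 1, 0 < y + wk f (e :: l) r) := by
            intro e
            have h3 := abs_le.1 (hf e)
            refine (ih ht' (y + f e) (by linarith)).trans (Pr_mono p hp t _ _ ?_)
            intro l _ h r hr
            cases r with
            | zero =>
              rw [wk_zero]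
              linarith
            | succ r =>
              rw [wk_cons]
              have := h r (by omega)
              linarith
          calc 1 / 2 * (y / (H + 1)) = ∑ e, p e * (1 / 2 * ((y + f e) / (H + 1))) := by
                have : ∀ e, p e * (1 / 2 * ((y + f e) / (H + 1))) =
                    p e * (1 / 2 * (y / (H + 1))) + (p e * f e) * (1 / 2 / (H + 1)) := by
                  intro e
                  ring
                simp only [this]
                rw [Finset.sum_add_distrib, ← Finset.sum_mul, ← Finset.sum_mul, h1, h0]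
                ring
            _ ≤ _ := Finset.sum_le_sum fun e _ => mul_le_mul_of_nonneg_left (h2 e) (hp e)
      · have : y / (H + 1) ≤ 0 := div_nonpos_of_nonpos_of_nonneg (by linarith) (by linarith)
        have h2 := Pr_nonneg p hp (t + 1) (fun l => ∀ r ≤ t + 1, 0 < y + wk f l r)
        linarith
  have hzH : z ≤ H + 1 := by
    have : R ≤ L * R := by nlinarith
    linarith
  refine le_trans ?_ (key T1 hT1 z hzH)
  have e1 : H + 1 ≤ (L + 1) * R := by
    rw [hH]
    nlinarith
  have e2 : 1 / (2 * (L + 1)) * z / R = 1 / 2 * (z / ((L + 1) * R)) := by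
    field_simp
  rw [e2]
  have e3 : z / ((L + 1) * R) ≤ z / (H + 1) :=
    div_le_div_of_nonneg_left hz.le (by positivity) e1
  linarith

theorem main0 (hSTAY : S_STAY) : S_STAY0 := by
  intro α _ p f hp h1 h0 hf he M hM
  obtain ⟨e0, hp0, hf0⟩ := he
  obtain ⟨c, hc, h⟩ := hSTAY α p f hp h1 h0 hf M hM
  have hf1 : f e0 ≤ 1 := (abs_le.1 (hf e0)).2
  refine ⟨min 1 (p e0 * (c * f e0)), lt_min one_pos (by positivity), ?_⟩
  intro R T1 T hR hT1 hT
  have hR0 : 0 < R := by linarith
  rcases Nat.eq_zero_or_pos T1 with h2 | h2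
  · subst h2
    have e1 : Pr p T (fun l => ∀ t, 1 ≤ t → t ≤ 0 → 0 < wk f l t) = 1 := by
      rw [Pr_congr p hp T _ (fun _ => True) fun l _ =>
        ⟨fun _ => trivial, fun _ t ht ht' => by omega⟩]
      unfold Pr
      have : (fun _ : List α => ind True) = fun _ => (1 : ℝ) := by
        funext l
        exact ind_true trivial
      rw [this, Ex_const p h1]
    rw [e1, div_le_one hR0]
    exact (min_le_left _ _).trans hR
  · obtain ⟨T1', rfl⟩ := Nat.exists_eq_succ_of_ne_zero h2.ne'
    obtain ⟨T', rfl⟩ : ∃ T', T = T' + 1 := ⟨T - 1, by omega⟩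
    have h3 := h R (f e0) T1' T' hR hf0 (hf1.trans hR) (by
      push_cast at hT1
      linarith) (by omega)
    rw [Pr_succ]
    calc min 1 (p e0 * (c * f e0)) / R ≤ (p e0 * (c * f e0)) / R :=
          div_le_div_of_nonneg_right (min_le_right _ _) hR0.le
      _ = p e0 * (c * f e0 / R) := by ring
      _ ≤ p e0 * Pr p T' (fun l => ∀ t ≤ T1', 0 < f e0 + wk f l t) :=
          mul_le_mul_of_nonneg_left h3 hp0.le
      _ ≤ p e0 * Pr p T' (fun l => ∀ t, 1 ≤ t → t ≤ T1' + 1 → 0 < wk f (e0 :: l) t) := by
          refine mul_le_mul_of_nonneg_left (Pr_mono p hp T' _ _ ?_) hp0.le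
          intro l _ h4 t ht ht'
          cases t with
          | zero => omega
          | succ t =>
            rw [wk_cons]
            exact h4 t (by omega)
      _ ≤ ∑ e, p e * Pr p T' (fun l => ∀ t, 1 ≤ t → t ≤ T1' + 1 → 0 < wk f (e :: l) t) :=
          Finset.single_le_sum
            (f := fun e => p e * Pr p T' (fun l => ∀ t, 1 ≤ t → t ≤ T1' + 1 →
              0 < wk f (e :: l) t))
            (fun e _ => mul_nonneg (hp e) (Pr_nonneg p hp _ _)) (Finset.mem_univ e0)

end Pool.Agent.Helper39.BW.STAY
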